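import Mathlib

/-!
Finitely generated rings from self-similar diagonal operators.

`E κ` is the endomorphism ring of the free abelian group on the words over `κ`. For a bijection
`β : Y × C ≃ Y` and functions `a i : Y → ℤ` we take the subring `R` of `Y → E κ`,
`κ = I ⊕ (C ⊕ C)`, generated by the constant functions `s j`, `t j` (adding and removing the letter
`j`) and one function `DD` whose values are diagonal operators. It is closed under pulling
back and pushing forward along the injections `β (·, c)`, so `R ≃+* (C → R)`.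
-/

namespace Pool.Agent.KS6_45.SP

open Finset

lemma fg_closure {A : Type} [Ring A] (G : Set A) (hG : G.Finite) :
    ∃ S : Finset (Subring.closure G), Subring.closure (S : Set (Subring.closure G)) = ⊤ := by
  classical
  have hfin : (((↑) : Subring.closure G → A) ⁻¹' G).Finite :=
    hG.preimage Subtype.val_injective.injOn
  refine ⟨hfin.toFinset, ?_⟩
  rw [Set.Finite.coe_toFinset]
  have key : ∀ x (hx : x ∈ Subring.closure G), (⟨x, hx⟩ : Subring.closure G) ∈
      Subring.closure (((↑) : Subring.closure G → A) ⁻¹' G) := by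
    intro x hx
    induction hx using Subring.closure_induction with
    | mem y h => exact Subring.subset_closure h
    | zero => exact zero_mem _
    | one => exact one_mem _
    | add y z hy hz ihy ihz => exact add_mem ihy ihz
    | neg y hy ihy => exact neg_mem ihy
    | mul y z hy hz ihy ihz => exact mul_mem ihy ihz
  exact eq_top_iff.2 fun x _ => key x.1 x.2

abbrev V (κ : Type) := List κ →₀ ℤ
abbrev E (κ : Type) := Module.End ℤ (V κ)

section Ops
variable {κ : Type}

/-- add the letter `j` -/
noncomputable def s (j : κ) : E κ := Finsupp.lmapDomain ℤ ℤ (List.cons j)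
/-- remove the letter `j` -/
noncomputable def t (j : κ) : E κ := Finsupp.lcomapDomain (List.cons j) List.cons_injective
/-- diagonal operator -/
noncomputable def D (a : List κ → ℤ) : E κ :=
  Finsupp.linearCombination ℤ (fun w => Finsupp.single w (a w))

lemma t_apply (j : κ) (v : V κ) (w : List κ) : t j v w = v (j :: w) := rfl

lemma s_single (j : κ) (w : List κ) (c : ℤ) :
    s j (Finsupp.single w c) = Finsupp.single (j :: w) c := by
  simp [s, Finsupp.mapDomain_single]

lemma s_apply_nil (j : κ) (v : V κ) : s j v [] = 0 := by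
  simp only [s, Finsupp.lmapDomain_apply]
  exact Finsupp.mapDomain_of_notMem_range _ _ (by simp)

lemma s_apply_cons (j : κ) (v : V κ) (w : List κ) : s j v (j :: w) = v w := by
  simp only [s, Finsupp.lmapDomain_apply]
  exact Finsupp.mapDomain_apply List.cons_injective _ _

lemma s_apply_cons_ne (j l : κ) (h : j ≠ l) (v : V κ) (w : List κ) : s j v (l :: w) = 0 := by
  simp only [s, Finsupp.lmapDomain_apply]
  refine Finsupp.mapDomain_of_notMem_range _ _ ?_
  rintro ⟨x, hx⟩
  exact h (List.cons.inj hx).1

lemma D_single (a : List κ → ℤ) (w : List κ) (c : ℤ) :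
    D a (Finsupp.single w c) = Finsupp.single w (c * a w) := by
  simp [D]

lemma D_apply (a : List κ → ℤ) (v : V κ) (w : List κ) : D a v w = a w * v w := by
  classical
  have : (Finsupp.lapply w ∘ₗ D a : V κ →ₗ[ℤ] ℤ) = a w • Finsupp.lapply w := by
    refine Finsupp.lhom_ext fun w' c => ?_
    simp only [LinearMap.comp_apply, D_single, Finsupp.lapply_apply, LinearMap.smul_apply,
      Finsupp.single_apply, smul_eq_mul]
    split_ifs with h
    · subst h; ring
    · simp
  have := LinearMap.congr_fun this v
  simpa using this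

lemma tDs (a : List κ → ℤ) (j : κ) : t j * D a * s j = D (fun w => a (j :: w)) := by
  refine LinearMap.ext fun v => Finsupp.ext fun w => ?_
  simp only [Module.End.mul_apply, t_apply, D_apply, s_apply_cons]

lemma D_const (c : ℤ) : D (fun _ : List κ => c) = (c : E κ) := by
  refine LinearMap.ext fun v => Finsupp.ext fun w => ?_
  rw [D_apply, Module.End.intCast_apply]
  simp

lemma coef [DecidableEq κ] (z : E κ) (hs : ∀ j, z * s j = s j * z) (ht : ∀ j, z * t j = t j * z) :
    ∀ w w' : List κ, z (Finsupp.single w 1) w' = if w = w' then z (Finsupp.single [] 1) [] else 0 := by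
  intro w
  induction w with
  | nil =>
    intro w'
    cases w' with
    | nil => simp
    | cons l q =>
      have h1 : z (Finsupp.single [] 1) (l :: q) = t l (z (Finsupp.single [] 1)) q := rfl
      have h2 : t l (z (Finsupp.single [] 1)) = z (t l (Finsupp.single [] 1)) := by
        rw [← Module.End.mul_apply, ← ht, Module.End.mul_apply]
      have h3 : t l (Finsupp.single ([] : List κ) (1 : ℤ)) = 0 := by
        refine Finsupp.ext fun x => ?_
        rw [t_apply]; simp [Finsupp.single_apply]
      rw [h1, h2, h3]
      simp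
  | cons j p ih =>
    intro w'
    have h1 : z (Finsupp.single (j :: p) 1) = s j (z (Finsupp.single p 1)) := by
      rw [← s_single, ← Module.End.mul_apply, hs, Module.End.mul_apply]
    rw [h1]
    cases w' with
    | nil => rw [s_apply_nil]; simp
    | cons l q =>
      by_cases h : j = l
      · subst h
        rw [s_apply_cons, ih q]
        simp
      · rw [s_apply_cons_ne _ _ h]
        simp [h]

lemma scalar_of_commute [DecidableEq κ] (z : E κ) (hs : ∀ j, z * s j = s j * z)
    (ht : ∀ j, z * t j = t j * z) : z = ((z (Finsupp.single [] 1) [] : ℤ) : E κ) := by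
  refine Finsupp.lhom_ext' fun w => LinearMap.ext_ring (Finsupp.ext fun w' => ?_)
  rw [LinearMap.comp_apply, LinearMap.comp_apply, Finsupp.lsingle_apply, coef z hs ht,
    Module.End.intCast_apply]
  simp [Finsupp.single_apply]

lemma apply_coef (F : E κ) (v : V κ) (S : Finset (List κ)) (hS : ∀ w ∉ S, v w = 0) (w' : List κ) :
    F v w' = ∑ w ∈ S, v w * F (Finsupp.single w 1) w' := by
  classical
  have hv : v = ∑ w ∈ S, v w • Finsupp.single w (1 : ℤ) := by
    refine Finsupp.ext fun x => ?_
    rw [Finsupp.finsetSum_apply]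
    simp only [Finsupp.smul_apply, Finsupp.single_apply, smul_eq_mul, mul_ite, mul_one, mul_zero]
    rw [Finset.sum_ite_eq']
    split_ifs with h
    · rfl
    · exact hS x h
  conv_lhs => rw [hv]
  rw [map_sum, Finsupp.finsetSum_apply]
  refine Finset.sum_congr rfl fun w _ => ?_
  rw [map_smul, Finsupp.smul_apply, smul_eq_mul]

end Ops

section General
variable {Y C I : Type} [DecidableEq C] (β : Y × C ≃ Y) (a : I → Y → ℤ)

/-- the self-similar diagonal -/
def d : List (I ⊕ (C ⊕ C)) → Y → ℤ
  | [] => fun _ => 0
  | Sum.inl i :: _ => a i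
  | Sum.inr (Sum.inl c) :: w => fun y => d w (β (y, c))
  | Sum.inr (Sum.inr c) :: w => fun y =>
      if (β.symm y).2 = c then d w (β.symm y).1 else 0

abbrev P (Y C I : Type) := Y → E (I ⊕ (C ⊕ C))

/-- the function with values the diagonal operators `D (d · y)` -/
noncomputable def DD : P Y C I := fun y => D (fun w => d β a w y)

/-- the finite set of generators -/
noncomputable def gens : Set (P Y C I) :=
  insert (DD β a) ((Set.range fun j : I ⊕ (C ⊕ C) => (fun _ : Y => s j)) ∪
    Set.range fun j : I ⊕ (C ⊕ C) => (fun _ : Y => t j))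

/-- the ring -/
noncomputable def R : Subring (P Y C I) := Subring.closure (gens β a)

lemma gens_finite [Finite C] [Finite I] : (gens β a).Finite :=
  ((Set.finite_range _).union (Set.finite_range _)).insert _

lemma DD_mem : DD β a ∈ R β a := Subring.subset_closure (Set.mem_insert _ _)
lemma s_mem (j : I ⊕ (C ⊕ C)) : (fun _ : Y => s j) ∈ R β a :=
  Subring.subset_closure (Set.mem_insert_of_mem _ (Or.inl ⟨j, rfl⟩))
lemma t_mem (j : I ⊕ (C ⊕ C)) : (fun _ : Y => t j) ∈ R β a :=
  Subring.subset_closure (Set.mem_insert_of_mem _ (Or.inr ⟨j, rfl⟩))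

/-- scalars -/
noncomputable def scal : (Y → ℤ) →+* P Y C I :=
  RingHom.pi fun y => (Int.castRingHom (E (I ⊕ (C ⊕ C)))).comp (Pi.evalRingHom _ y)

omit [DecidableEq C] in
lemma scal_apply (f : Y → ℤ) (y : Y) :
    (scal f : P Y C I) y = ((f y : ℤ) : E (I ⊕ (C ⊕ C))) := rfl

/-- pull back -/
noncomputable def pull (c : C) : P Y C I →+* P Y C I := RingHom.pi fun y => Pi.evalRingHom _ (β (y, c))

omit [DecidableEq C] in
lemma pull_apply (c : C) (f : P Y C I) (y : Y) : pull β c f y = f (β (y, c)) := rfl

/-- push forward -/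
noncomputable def push (c : C) (f : P Y C I) : P Y C I :=
  fun y => if (β.symm y).2 = c then f (β.symm y).1 else 0

lemma push_add (c : C) (f g : P Y C I) : push β c (f + g) = push β c f + push β c g := by
  funext y; simp only [push, Pi.add_apply]; split_ifs <;> simp
lemma push_mul (c : C) (f g : P Y C I) : push β c (f * g) = push β c f * push β c g := by
  funext y; simp only [push, Pi.mul_apply]; split_ifs <;> simp
lemma push_neg (c : C) (f : P Y C I) : push β c (-f) = -push β c f := by
  funext y; simp only [push, Pi.neg_apply]; split_ifs <;> simp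
lemma push_zero (c : C) : push β c (0 : P Y C I) = 0 := by
  funext y; simp [push]

lemma pull_push (c c' : C) (f : P Y C I) :
    pull β c (push β c' f) = if c = c' then f else 0 := by
  funext y
  rw [pull_apply, push]
  simp only [Equiv.symm_apply_apply]
  split_ifs <;> rfl

lemma sum_push_pull [Fintype C] (f : P Y C I) : ∑ c, push β c (pull β c f) = f := by
  funext y
  rw [Finset.sum_apply]
  simp only [push, pull_apply]
  rw [Finset.sum_ite_eq]
  simp

/-- the pull back of the main generator -/
lemma pull_DD (c : C) : pull β c (DD β a) =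
    (fun _ => t (Sum.inr (Sum.inl c))) * DD β a * (fun _ => s (Sum.inr (Sum.inl c))) := by
  funext y
  rw [pull_apply, Pi.mul_apply, Pi.mul_apply]
  change _ = t _ * DD β a y * s _
  rw [DD, DD, tDs]
  rfl

/-- the push forward of the main generator -/
lemma push_DD (c : C) : push β c (DD β a) =
    (fun _ => t (Sum.inr (Sum.inr c))) * DD β a * (fun _ => s (Sum.inr (Sum.inr c))) := by
  funext y
  rw [Pi.mul_apply, Pi.mul_apply]
  change _ = t _ * DD β a y * s _
  rw [DD, tDs, push]
  change _ = D (fun w => if (β.symm y).2 = c then d β a w (β.symm y).1 else 0)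
  split_ifs with h
  · rfl
  · have := D_const (κ := I ⊕ (C ⊕ C)) 0
    rw [this]; simp

lemma pull_mem (c : C) {f : P Y C I} (hf : f ∈ R β a) : pull β c f ∈ R β a := by
  have h : R β a ≤ (R β a).comap (pull β c) := by
    refine Subring.closure_le.2 ?_
    rintro g (rfl | ⟨j, rfl⟩ | ⟨j, rfl⟩)
    · change pull β c (DD β a) ∈ R β a
      rw [pull_DD]
      exact mul_mem (mul_mem (t_mem β a _) (DD_mem β a)) (s_mem β a _)
    · exact s_mem β a j
    · exact t_mem β a j
  exact h hf

/-- the functions `a i` are scalars of the ring -/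
lemma scal_a_mem (i : I) : scal (a i) ∈ R β a := by
  have : (scal (a i) : P Y C I) = (fun _ => t (Sum.inl i)) * DD β a * (fun _ => s (Sum.inl i)) := by
    funext y
    rw [Pi.mul_apply, Pi.mul_apply]
    change _ = t _ * DD β a y * s _
    rw [DD, tDs, scal_apply]
    change _ = D (fun _ => a i y)
    rw [D_const]
  rw [this]
  exact mul_mem (mul_mem (t_mem β a _) (DD_mem β a)) (s_mem β a _)

variable (i1 : I) (h1 : a i1 = 1)

include h1 in
lemma push_one_mem (c : C) : push β c 1 ∈ R β a := by
  have h : push β c 1 = (fun _ => t (Sum.inl i1)) * push β c (DD β a) *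
      (fun _ => s (Sum.inl i1)) := by
    funext y
    rw [Pi.mul_apply, Pi.mul_apply]
    change _ = t _ * push β c (DD β a) y * s _
    rw [push, push]
    split_ifs with h
    · rw [DD, tDs]
      change _ = D (fun _ => a i1 _)
      rw [h1]
      simp only [Pi.one_apply]
      rw [D_const]
      simp
    · simp
  rw [h, push_DD]
  exact mul_mem (mul_mem (t_mem β a _) (mul_mem (mul_mem (t_mem β a _) (DD_mem β a))
    (s_mem β a _))) (s_mem β a _)

include h1 in
lemma push_mem (c : C) {f : P Y C I} (hf : f ∈ R β a) : push β c f ∈ R β a := by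
  have hone := push_one_mem β a i1 h1 c
  induction hf using Subring.closure_induction with
  | mem x hx =>
    rcases hx with rfl | ⟨j, rfl⟩ | ⟨j, rfl⟩
    · rw [push_DD]
      exact mul_mem (mul_mem (t_mem β a _) (DD_mem β a)) (s_mem β a _)
    · have : push β c (fun _ : Y => s j) = push β c 1 * (fun _ : Y => s j) := by
        funext y; simp only [push, Pi.mul_apply, Pi.one_apply]; split_ifs <;> simp
      rw [this]; exact mul_mem hone (s_mem β a j)
    · have : push β c (fun _ : Y => t j) = push β c 1 * (fun _ : Y => t j) := by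
        funext y; simp only [push, Pi.mul_apply, Pi.one_apply]; split_ifs <;> simp
      rw [this]; exact mul_mem hone (t_mem β a j)
  | zero => rw [push_zero]; exact zero_mem _
  | one => exact hone
  | add x y _ _ hx hy => rw [push_add]; exact add_mem hx hy
  | neg x _ hx => rw [push_neg]; exact neg_mem hx
  | mul x y _ _ hx hy => rw [push_mul]; exact mul_mem hx hy

/-- `R` is isomorphic to its power `C → R`. -/
noncomputable def selfPower [Fintype C] : R β a ≃+* (C → R β a) where
  toFun f c := ⟨pull β c f.1, pull_mem β a c f.2⟩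
  invFun g := ⟨∑ c, push β c (g c).1, sum_mem fun c _ => push_mem β a i1 h1 c (g c).2⟩
  left_inv f := Subtype.ext (sum_push_pull β f.1)
  right_inv g := by
    funext c
    refine Subtype.ext ?_
    change pull β c (∑ c', push β c' (g c').1) = _
    rw [map_sum]
    simp only [pull_push]
    rw [Finset.sum_ite_eq]
    simp
  map_mul' f g := by funext c; exact Subtype.ext (map_mul (pull β c) _ _)
  map_add' f g := by funext c; exact Subtype.ext (map_add (pull β c) _ _)

/-- `R` is finitely generated. -/
lemma fg [Finite C] [Finite I] : ∃ S : Finset (R β a), Subring.closure (S : Set (R β a)) = ⊤ :=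
  fg_closure (gens β a) (gens_finite β a)

/-- The value of a central element at a point. -/
noncomputable def val (z : P Y C I) (y : Y) : ℤ := z y (Finsupp.single [] 1) []

omit [DecidableEq C] in
lemma val_scal (f : Y → ℤ) : val (scal f : P Y C I) = f := by
  funext y
  rw [val, scal_apply, Module.End.intCast_apply]
  simp

lemma scal_val {z : P Y C I} (hz : ∀ x ∈ R β a, z * x = x * z) : z = scal (val z) := by
  classical
  funext y
  rw [scal_apply]
  refine scalar_of_commute (z y) (fun j => ?_) (fun j => ?_)
  · exact congrFun (hz _ (s_mem β a j)) y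
  · exact congrFun (hz _ (t_mem β a j)) y

omit [DecidableEq C] in
lemma scal_comm (f : Y → ℤ) (x : P Y C I) : scal f * x = x * scal f := by
  funext y
  rw [Pi.mul_apply, Pi.mul_apply, scal_apply]
  exact Int.cast_comm _ _

/-- coefficients of the elements of the ring -/
lemma coef_mem (A : Subring (Y → ℤ)) (hpull : ∀ c, ∀ f ∈ A, (fun y => f (β (y, c))) ∈ A)
    (hpush : ∀ c, ∀ f ∈ A, (fun y => if (β.symm y).2 = c then f (β.symm y).1 else 0) ∈ A)
    (ha : ∀ i, a i ∈ A) {F : P Y C I} (hF : F ∈ R β a) (w : List (I ⊕ (C ⊕ C))) :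
    (∃ S : Finset (List (I ⊕ (C ⊕ C))), ∀ y, ∀ w' ∉ S, F y (Finsupp.single w 1) w' = 0) ∧
    ∀ w', (fun y => F y (Finsupp.single w 1) w') ∈ A := by
  classical
  have hd : ∀ w, d β a w ∈ A := by
    intro w
    induction w with
    | nil => exact zero_mem A
    | cons j w ih =>
      rcases j with i | c | c
      · exact ha i
      · exact hpull c _ ih
      · exact hpush c _ ih
  have hc : ∀ (n : ℤ), (fun _ : Y => n) ∈ A := fun n => by
    have h := intCast_mem A n
    have h2 : (fun _ : Y => n) = ((n : ℤ) : Y → ℤ) := by funext y; simp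
    rw [h2]; exact h
  induction hF using Subring.closure_induction generalizing w with
  | mem x hx =>
    rcases hx with rfl | ⟨j, rfl⟩ | ⟨j, rfl⟩
    · refine ⟨⟨{w}, fun y w' hw' => ?_⟩, fun w' => ?_⟩
      · rw [DD, D_single]
        have : w ≠ w' := fun h => hw' (by simp [h])
        simp [Finsupp.single_apply, this]
      · by_cases h : w = w'
        · subst h
          have : (fun y => DD β a y (Finsupp.single w 1) w) = d β a w := by
            funext y; rw [DD, D_single]; simp
          rw [this]; exact hd w
        · have : (fun y => DD β a y (Finsupp.single w 1) w') = fun _ => 0 := by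
            funext y; rw [DD, D_single]; simp [Finsupp.single_apply, h]
          rw [this]; exact hc 0
    · refine ⟨⟨(s j (Finsupp.single w 1)).support, fun y w' hw' => ?_⟩, fun w' => hc _⟩
      exact Finsupp.notMem_support_iff.1 hw'
    · refine ⟨⟨(t j (Finsupp.single w 1)).support, fun y w' hw' => ?_⟩, fun w' => hc _⟩
      exact Finsupp.notMem_support_iff.1 hw'
  | zero => exact ⟨⟨∅, fun y w' _ => rfl⟩, fun w' => hc 0⟩
  | one =>
    refine ⟨⟨{w}, fun y w' hw' => ?_⟩, fun w' => hc ((Finsupp.single w (1:ℤ)) w')⟩
    have : w ≠ w' := fun h => hw' (by simp [h])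
    change (Finsupp.single w (1:ℤ)) w' = 0
    simp [Finsupp.single_apply, this]
  | add x y _ _ hx hy =>
    obtain ⟨⟨S, hS⟩, hx2⟩ := hx w
    obtain ⟨⟨T, hT⟩, hy2⟩ := hy w
    refine ⟨⟨S ∪ T, fun u w' hw' => ?_⟩, fun w' => add_mem (hx2 w') (hy2 w')⟩
    rw [Finset.mem_union, not_or] at hw'
    change x u (Finsupp.single w 1) w' + y u (Finsupp.single w 1) w' = 0
    rw [hS u w' hw'.1, hT u w' hw'.2, add_zero]
  | neg x _ hx =>
    obtain ⟨⟨S, hS⟩, hx2⟩ := hx w
    refine ⟨⟨S, fun u w' hw' => ?_⟩, fun w' => neg_mem (hx2 w')⟩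
    change -(x u (Finsupp.single w 1) w') = 0
    rw [hS u w' hw', neg_zero]
  | mul x y _ _ hx hy =>
    obtain ⟨⟨T, hT⟩, hy2⟩ := hy w
    have key : ∀ u w', (x * y) u (Finsupp.single w 1) w' =
        ∑ v ∈ T, y u (Finsupp.single w 1) v * x u (Finsupp.single v 1) w' := by
      intro u w'
      change x u (y u (Finsupp.single w 1)) w' = _
      exact apply_coef _ _ T (hT u) w'
    choose S hS using fun v => (hx v).1
    refine ⟨⟨T.biUnion S, fun u w' hw' => ?_⟩, fun w' => ?_⟩
    · rw [key]
      refine Finset.sum_eq_zero fun v hv => ?_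
      rw [hS v u w' (fun h => hw' (Finset.mem_biUnion.2 ⟨v, hv, h⟩)), mul_zero]
    · have : (fun u => (x * y) u (Finsupp.single w 1) w') =
          ∑ v ∈ T, (fun u => y u (Finsupp.single w 1) v) * (fun u => x u (Finsupp.single v 1) w') := by
        funext u
        rw [key, Finset.sum_apply]
        rfl
      rw [this]
      exact sum_mem fun v _ => mul_mem (hy2 v) ((hx v).2 w')

lemma val_mem (A : Subring (Y → ℤ)) (hpull : ∀ c, ∀ f ∈ A, (fun y => f (β (y, c))) ∈ A)
    (hpush : ∀ c, ∀ f ∈ A, (fun y => if (β.symm y).2 = c then f (β.symm y).1 else 0) ∈ A)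
    (ha : ∀ i, a i ∈ A) {F : P Y C I} (hF : F ∈ R β a) : val F ∈ A :=
  (coef_mem β a A hpull hpush ha hF []).2 []

end General

end Pool.Agent.KS6_45.SP
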