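import Pool.Agent.KS6_45.SP.Basic

/-!
The concrete case: blocks of `n` points indexed by `ℕ` and one extra point.
-/

namespace Pool.Agent.KS6_45.SP

open Finset

section Concrete
variable (n : ℕ)

/-- `n` points `some (m, i)` in each block `m`, and one extra point `none` -/
abbrev Y := Option (ℕ × Fin n)

/-- the map underlying `beta` -/
def toF : Y n × Fin (n + 1) → Y n
  | (some (m, i), c) => some ((n + 1) * m + c.1 + 1, i)
  | (none, c) => if h : c.1 < n then some (0, ⟨c.1, h⟩) else none

/-- the inverse -/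
def invF : Y n → Y n × Fin (n + 1)
  | none => (none, Fin.last n)
  | some (0, i) => (none, i.castSucc)
  | some (m + 1, i) => (some (m / (n + 1), i), ⟨m % (n + 1), Nat.mod_lt _ n.succ_pos⟩)

lemma inv_to (x : Y n × Fin (n + 1)) : invF n (toF n x) = x := by
  obtain ⟨y, c⟩ := x
  rcases y with _ | ⟨m, i⟩
  · by_cases h : c.1 < n
    · simp only [toF, h, dite_true, invF]
      rfl
    · have hc : c = Fin.last n := Fin.ext (by have := c.2; simp only [Fin.val_last]; omega)
      subst hc
      simp [toF, invF]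
  · simp only [toF, invF]
    have h1 : ((n + 1) * m + c.1) / (n + 1) = m := by
      rw [Nat.mul_add_div n.succ_pos, Nat.div_eq_of_lt c.2, add_zero]
    have h2 : ((n + 1) * m + c.1) % (n + 1) = c.1 := by
      rw [Nat.mul_add_mod, Nat.mod_eq_of_lt c.2]
    simp only [h1, h2]

lemma to_inv (y : Y n) : toF n (invF n y) = y := by
  rcases y with _ | ⟨m, i⟩
  · simp [toF, invF]
  · cases m with
    | zero => simp [toF, invF]
    | succ m =>
      simp only [toF, invF]
      rw [Nat.div_add_mod]

/-- the bijection -/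
def beta : Y n × Fin (n + 1) ≃ Y n := ⟨toF n, invF n, inv_to n, to_inv n⟩

/-- the three functions: the constant `1`, the atom at the extra point, the number of the block -/
def fn : Fin 3 → Y n → ℤ
  | 0 => 1
  | 1 => fun y => if y = none then 1 else 0
  | 2 => fun y => match y with
    | none => 0
    | some (m, _) => (m : ℤ) + 1

/-- functions that are constant on almost all blocks -/
def AA : Subring (Y n → ℤ) where
  carrier := {f | ∃ M : ℕ, ∀ m ≥ M, ∀ p q : Fin n, f (some (m, p)) = f (some (m, q))}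
  mul_mem' := by
    rintro f g ⟨M, hM⟩ ⟨N, hN⟩
    refine ⟨max M N, fun m hm p q => ?_⟩
    simp only [Pi.mul_apply]
    rw [hM m (le_trans (le_max_left _ _) hm) p q, hN m (le_trans (le_max_right _ _) hm) p q]
  one_mem' := ⟨0, fun _ _ _ _ => rfl⟩
  add_mem' := by
    rintro f g ⟨M, hM⟩ ⟨N, hN⟩
    refine ⟨max M N, fun m hm p q => ?_⟩
    simp only [Pi.add_apply]
    rw [hM m (le_trans (le_max_left _ _) hm) p q, hN m (le_trans (le_max_right _ _) hm) p q]
  zero_mem' := ⟨0, fun _ _ _ _ => rfl⟩
  neg_mem' := by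
    rintro f ⟨M, hM⟩
    refine ⟨M, fun m hm p q => ?_⟩
    simp only [Pi.neg_apply]
    rw [hM m hm p q]

/-- the ring `R_n` -/
noncomputable abbrev RR : Subring (P (Y n) (Fin (n + 1)) (Fin 3)) := R (beta n) (fn n)

lemma val_mem_AA {F : P (Y n) (Fin (n + 1)) (Fin 3)} (hF : F ∈ RR n) : val F ∈ AA n := by
  refine val_mem (beta n) (fn n) (AA n) ?_ ?_ ?_ hF
  · rintro c f ⟨M, hM⟩
    refine ⟨M, fun m hm p q => ?_⟩
    change f (some ((n + 1) * m + c.1 + 1, p)) = f (some ((n + 1) * m + c.1 + 1, q))
    refine hM _ ?_ p q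
    nlinarith [Nat.zero_le c.1, Nat.zero_le (n * m)]
  · rintro c f ⟨M, hM⟩
    refine ⟨(n + 1) * M + 1, fun m hm p q => ?_⟩
    obtain ⟨m, rfl⟩ : ∃ k, m = k + 1 := ⟨m - 1, by omega⟩
    change (if (⟨m % (n + 1), Nat.mod_lt _ n.succ_pos⟩ : Fin (n + 1)) = c then
      f (some (m / (n + 1), p)) else 0) = if (⟨m % (n + 1), Nat.mod_lt _ n.succ_pos⟩ : Fin (n + 1)) = c then
      f (some (m / (n + 1), q)) else 0
    have : M ≤ m / (n + 1) := by
      rw [Nat.le_div_iff_mul_le n.succ_pos]
      have := Nat.le_of_succ_le_succ hm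
      rwa [mul_comm] at this
    rw [hM _ this p q]
  · intro i
    fin_cases i
    · exact one_mem _
    · exact ⟨0, fun _ _ _ _ => rfl⟩
    · exact ⟨0, fun _ _ _ _ => rfl⟩

/-- the atom at `y` -/
def atom (y : Y n) : Y n → ℤ := fun x => if x = y then 1 else 0

lemma push_atom (y : Y n) (c : Fin (n + 1)) :
    push (beta n) c (scal (atom n y) : P (Y n) (Fin (n + 1)) (Fin 3)) =
      scal (atom n (beta n (y, c))) := by
  funext x
  rw [push, scal_apply, scal_apply]
  obtain ⟨⟨x', c'⟩, rfl⟩ := (beta n).surjective x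
  simp only [Equiv.symm_apply_apply, atom, EmbeddingLike.apply_eq_iff_eq, Prod.mk.injEq]
  by_cases h1 : c' = c <;> by_cases h2 : x' = y <;> simp [h1, h2]

lemma atom_mem : ∀ y : Y n, (scal (atom n y) : P (Y n) (Fin (n + 1)) (Fin 3)) ∈ RR n := by
  have h0 : (scal (atom n none) : P (Y n) (Fin (n + 1)) (Fin 3)) ∈ RR n :=
    scal_a_mem (beta n) (fn n) 1
  have hs : ∀ (m : ℕ) (i : Fin n), (scal (atom n (some (m, i))) : P (Y n) (Fin (n + 1)) (Fin 3)) ∈ RR n := by
    intro m
    induction m using Nat.strong_induction_on with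
    | _ m ih =>
      intro i
      have key : some (m, i) = beta n (invF n (some (m, i))) := (to_inv n _).symm
      cases m with
      | zero =>
        have := push_mem (beta n) (fn n) 0 rfl i.castSucc h0
        rw [push_atom] at this
        rw [key]; exact this
      | succ m =>
        have := push_mem (beta n) (fn n) 0 rfl ⟨m % (n + 1), Nat.mod_lt _ n.succ_pos⟩
          (ih (m / (n + 1)) (lt_of_le_of_lt (Nat.div_le_self _ _) (Nat.lt_succ_self m)) i)
        rw [push_atom] at this
        rw [key]; exact this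
  rintro (_ | ⟨m, i⟩)
  · exact h0
  · exact hs m i

end Concrete
end Pool.Agent.KS6_45.SP
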