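import Pool.Agent.KS6_45.SP.Concrete

/-!
Powers of the ring `RR n`.
-/

namespace Pool.Agent.KS6_45.SP

open Finset

section Iso

/-- `R ^ (a + b) = R ^ a × R ^ b` -/
def powAdd (A : Type) [Ring A] (a b : ℕ) : (Fin (a + b) → A) ≃+* (Fin a → A) × (Fin b → A) :=
  (RingEquiv.piCongrLeft' (fun _ => A) (finSumFinEquiv (m := a) (n := b)).symm).trans
    (RingEquiv.sumArrowEquivProdArrow (Fin a) (Fin b) A)

/-- If `A ≅ A ^ (n + 1)` then `A ^ (i + 1) ≅ A ^ (i + 1 + n)`. -/
def powStep {A : Type} [Ring A] {n : ℕ} (e : A ≃+* (Fin (n + 1) → A)) (i : ℕ) :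
    (Fin (i + 1) → A) ≃+* (Fin (i + (n + 1)) → A) :=
  (powAdd A i 1).trans ((RingEquiv.prodCongr (RingEquiv.refl _)
    ((RingEquiv.piUnique (fun _ : Fin 1 => A)).trans e)).trans (powAdd A i (n + 1)).symm)

lemma pow_iso_of_modEq {A : Type} [Ring A] {n : ℕ} (e : A ≃+* (Fin (n + 1) → A)) (i k : ℕ) :
    Nonempty ((Fin (i + 1) → A) ≃+* (Fin (i + 1 + k * n) → A)) := by
  induction k with
  | zero =>
    have h : i + 1 + 0 * n = i + 1 := by omega
    rw [h]
    exact ⟨RingEquiv.refl _⟩
  | succ k ih =>
    obtain ⟨f⟩ := ih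
    have h1 : i + 1 + k * n = i + k * n + 1 := by omega
    have h2 : i + 1 + (k + 1) * n = i + k * n + (n + 1) := by ring
    rw [h1] at f
    rw [h2]
    exact ⟨f.trans (powStep e (i + k * n))⟩

end Iso

section Powers
variable (n : ℕ)

/-- the `i`-th power of the ring -/
abbrev W (i : ℕ) := Fin i → RR n

variable {n} {i j : ℕ}

/-- the value of an element of a power at a point -/
noncomputable def vl (u : W n i) (z : Y n × Fin i) : ℤ := val (u z.2).1 z.1

/-- the central idempotent of a point -/
noncomputable def eps (z : Y n × Fin i) : W n i :=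
  Pi.single z.2 ⟨scal (atom n z.1), atom_mem n z.1⟩

lemma central_eq {u : W n i} (hu : ∀ x, u * x = x * u) (k : Fin i) :
    (u k).1 = scal (val (u k).1) := by
  refine scal_val (beta n) (fn n) fun x hx => ?_
  have h := congrFun (hu (Pi.single k ⟨x, hx⟩)) k
  simp only [Pi.mul_apply, Pi.single_eq_same] at h
  exact congrArg Subtype.val h

lemma scal_atom_mul (f : Y n → ℤ) (y : Y n) :
    (scal f * scal (atom n y) : P (Y n) (Fin (n + 1)) (Fin 3)) = f y • scal (atom n y) := by
  rw [← map_mul, ← map_zsmul]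
  congr 1
  funext x
  simp only [Pi.mul_apply, atom, Pi.smul_apply, smul_eq_mul, mul_ite, mul_one, mul_zero]
  split_ifs with h
  · rw [h]
  · rfl

lemma central_mul_eps {u : W n i} (hu : ∀ x, u * x = x * u) (z : Y n × Fin i) :
    u * eps z = vl u z • eps z := by
  funext k
  rw [Pi.mul_apply, Pi.smul_apply]
  by_cases h : k = z.2
  · subst h
    refine Subtype.ext ?_
    rw [eps, Pi.single_eq_same]
    change (u z.2).1 * scal (atom n z.1) = vl u z • scal (atom n z.1)
    rw [central_eq hu, scal_atom_mul]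
    rfl
  · rw [eps, Pi.single_eq_of_ne h]
    simp

lemma eps_central (z : Y n × Fin i) (x : W n i) : eps z * x = x * eps z := by
  funext k
  rw [Pi.mul_apply, Pi.mul_apply]
  by_cases h : k = z.2
  · subst h
    refine Subtype.ext ?_
    rw [eps, Pi.single_eq_same]
    exact scal_comm _ _
  · rw [eps, Pi.single_eq_of_ne h]
    simp

lemma vl_eps (z z' : Y n × Fin i) : vl (eps z) z' = if z' = z then 1 else 0 := by
  rw [vl, eps]
  obtain ⟨y, k⟩ := z
  obtain ⟨y', k'⟩ := z'
  by_cases h : k' = k
  · subst h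
    simp only [Pi.single_eq_same, val_scal, atom, Prod.mk.injEq, and_true]
  · simp only [Pi.single_eq_of_ne h, Prod.mk.injEq, h, and_false, if_false]
    rfl

lemma vl_smul (c : ℤ) (u : W n i) (z : Y n × Fin i) : vl (c • u) z = c * vl u z := by
  rw [vl, vl, val, val]
  change (c • (u z.2).1) z.1 (Finsupp.single [] 1) [] = _
  rw [Pi.smul_apply, LinearMap.smul_apply, Finsupp.smul_apply, smul_eq_mul]

lemma vl_zero (z : Y n × Fin i) : vl (0 : W n i) z = 0 := rfl

lemma eps_injective : Function.Injective (eps (n := n) (i := i)) := by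
  intro z z' h
  have := congrArg (fun u => vl u z) h
  simp only [vl_eps] at this
  by_contra hne
  rw [if_neg hne] at this
  simp at this

lemma eps_ne_zero (z : Y n × Fin i) : eps z ≠ 0 := by
  intro h
  have := congrArg (fun u => vl u z) h
  simp only [vl_eps, vl_zero] at this
  simp at this

lemma eps_idem (z : Y n × Fin i) : eps z * eps z = eps z := by
  rw [central_mul_eps (eps_central z), vl_eps]; simp

/-- Values of central idempotents -/
lemma exists_one {u : W n i} (hu : ∀ x, u * x = x * u) (hid : u * u = u) (h0 : u ≠ 0) :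
    ∃ z, vl u z = 1 := by
  by_contra hne
  push Not at hne
  apply h0
  funext k
  refine Subtype.ext ?_
  rw [central_eq hu k]
  have : val (u k).1 = 0 := by
    funext y
    have h1 : vl u (y, k) * vl u (y, k) = vl u (y, k) := by
      have := congrArg (fun v => vl v (y, k)) (show u * u * eps (y, k) = u * eps (y, k) by rw [hid])
      simp only [mul_assoc, central_mul_eps hu, mul_smul_comm, vl_smul, vl_eps] at this
      simpa using this
    have h2 := hne (y, k)
    have h3 : vl u (y, k) * (vl u (y, k) - 1) = 0 := by rw [mul_sub, h1]; ring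
    rcases mul_eq_zero.1 h3 with h | h
    · exact h
    · exact absurd (by linarith) h2
  rw [this, map_zero]
  rfl

lemma exists_theta (Θ : W n i ≃+* W n j) (z : Y n × Fin i) :
    ∃ z' : Y n × Fin j, Θ (eps z) = eps z' := by
  have hc : ∀ x, Θ (eps z) * x = x * Θ (eps z) := by
    intro x
    obtain ⟨y, rfl⟩ := Θ.surjective x
    rw [← map_mul, eps_central, map_mul]
  have hid : Θ (eps z) * Θ (eps z) = Θ (eps z) := by rw [← map_mul, eps_idem]
  have h0 : Θ (eps z) ≠ 0 := by
    rw [Ne, EmbeddingLike.map_eq_zero_iff]; exact eps_ne_zero z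
  obtain ⟨z', hz'⟩ := exists_one hc hid h0
  refine ⟨z', ?_⟩
  have h1 : Θ (eps z) * eps z' = eps z' := by rw [central_mul_eps hc, hz', one_smul]
  have hvc : ∀ x, Θ.symm (eps z') * x = x * Θ.symm (eps z') := by
    intro x
    obtain ⟨y, rfl⟩ := Θ.symm.surjective x
    rw [← map_mul, eps_central, map_mul]
  have hv : eps z * Θ.symm (eps z') = Θ.symm (eps z') := by
    apply Θ.injective
    rw [map_mul, Θ.apply_symm_apply, h1]
  have hv2 : Θ.symm (eps z') = vl (Θ.symm (eps z')) z • eps z := by
    rw [← central_mul_eps hvc, ← eps_central, hv]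
  have hvid : Θ.symm (eps z') * Θ.symm (eps z') = Θ.symm (eps z') := by rw [← map_mul, eps_idem]
  have hv0 : Θ.symm (eps z') ≠ 0 := by
    rw [Ne, EmbeddingLike.map_eq_zero_iff]; exact eps_ne_zero z'
  obtain ⟨z1, hz1⟩ := exists_one hvc hvid hv0
  have hv3 : vl (Θ.symm (eps z')) z = 1 := by
    rw [hv2, vl_smul, vl_eps] at hz1
    by_cases h : z1 = z
    · rw [if_pos h, mul_one] at hz1; exact hz1
    · rw [if_neg h, mul_zero] at hz1; exact absurd hz1 (by norm_num)
  rw [hv3, one_smul] at hv2
  rw [← hv2, Θ.apply_symm_apply]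

/-- An isomorphism of powers gives a bijection of the points, compatible with the values of
central elements. -/
lemma exists_equiv (Θ : W n i ≃+* W n j) : ∃ θ : Y n × Fin i ≃ Y n × Fin j,
    ∀ u : W n i, (∀ x, u * x = x * u) → ∀ z, vl (Θ u) (θ z) = vl u z := by
  choose θ hθ using exists_theta Θ
  have hinj : Function.Injective θ := by
    intro z1 z2 h
    have : Θ (eps z1) = Θ (eps z2) := by rw [hθ, hθ, h]
    exact eps_injective (Θ.injective this)
  have hsurj : Function.Surjective θ := by
    intro z'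
    obtain ⟨z, hz⟩ := exists_theta Θ.symm z'
    refine ⟨z, eps_injective ?_⟩
    rw [← hθ, ← hz, Θ.apply_symm_apply]
  refine ⟨Equiv.ofBijective θ ⟨hinj, hsurj⟩, fun u hu z => ?_⟩
  change vl (Θ u) (θ z) = _
  have hc : ∀ x, Θ u * x = x * Θ u := by
    intro x
    obtain ⟨y, rfl⟩ := Θ.surjective x
    rw [← map_mul, hu, map_mul]
  have h1 : Θ u * eps (θ z) = vl u z • eps (θ z) := by
    rw [← hθ, ← map_mul, central_mul_eps hu, map_zsmul]
  rw [central_mul_eps hc] at h1
  have h2 := congrArg (fun v => vl v (θ z)) h1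
  simp only [vl_smul, vl_eps, if_true, mul_one] at h2
  exact h2

/-- The coordinate, an element of the power that separates the blocks -/
noncomputable def XX (n i : ℕ) : W n i := fun k =>
  ⟨scal (fun y => (i : ℤ) * fn n 2 y + (k.1 : ℤ)), by
    have h : (scal (fun y => (i : ℤ) * fn n 2 y + (k.1 : ℤ)) : P (Y n) (Fin (n + 1)) (Fin 3)) =
        (i : P (Y n) (Fin (n + 1)) (Fin 3)) * scal (fn n 2) + (k.1 : P (Y n) (Fin (n + 1)) (Fin 3)) := by
      rw [← map_natCast (scal (Y := Y n) (C := Fin (n + 1)) (I := Fin 3)) i,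
        ← map_natCast (scal (Y := Y n) (C := Fin (n + 1)) (I := Fin 3)) k.1, ← map_mul, ← map_add]
      rfl
    rw [h]
    exact add_mem (mul_mem (natCast_mem _ _) (scal_a_mem (beta n) (fn n) 2)) (natCast_mem _ _)⟩

lemma XX_central (x : W n i) : XX n i * x = x * XX n i := by
  funext k
  exact Subtype.ext (scal_comm _ _)

lemma vl_XX (z : Y n × Fin i) : vl (XX n i) z = (i : ℤ) * fn n 2 z.1 + (z.2.1 : ℤ) := by
  rw [vl, XX]
  simp only [val_scal]

/-- the block of a point -/
def bl (z : Y n × Fin i) : Option ℕ × Fin i := (z.1.map Prod.fst, z.2)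

lemma bl_eq_of_vl {z z' : Y n × Fin i} (h : vl (XX n i) z = vl (XX n i) z') : bl z = bl z' := by
  rw [vl_XX, vl_XX] at h
  obtain ⟨y, k⟩ := z
  obtain ⟨y', k'⟩ := z'
  simp only at h
  have hpos : (0 : ℤ) < i := by
    have := k.2; omega
  have e1 : ((i : ℤ) * fn n 2 y + k.1) % i = k.1 := by
    rw [Int.mul_add_emod_self_left]
    exact Int.emod_eq_of_lt (by positivity) (by exact_mod_cast k.2)
  have e2 : ((i : ℤ) * fn n 2 y' + k'.1) % i = k'.1 := by
    rw [Int.mul_add_emod_self_left]
    exact Int.emod_eq_of_lt (by positivity) (by exact_mod_cast k'.2)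
  have hk : (k.1 : ℤ) = k'.1 := by rw [← e1, ← e2, h]
  have hk' : k = k' := Fin.ext (by exact_mod_cast hk)
  subst hk'
  have hf : fn n 2 y = fn n 2 y' := by
    have : (i : ℤ) * fn n 2 y = i * fn n 2 y' := by linarith
    exact mul_left_cancel₀ (ne_of_gt hpos) this
  have hb : Option.map Prod.fst y = Option.map Prod.fst y' := by
    rcases y with _ | ⟨m, p⟩ <;> rcases y' with _ | ⟨m', p'⟩
    · rfl
    · simp only [fn] at hf; omega
    · simp only [fn] at hf; omega
    · simp only [fn] at hf
      have : m = m' := by omega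
      simp [this]
  rw [bl, bl, hb]

/-- The number of points of a finite set which contains the extra points and with each point its
whole block. -/
lemma card_mod (F : Finset (Y n × Fin i)) (h0 : ∀ k, (none, k) ∈ F)
    (hb : ∀ m p q k, (some (m, p), k) ∈ F → (some (m, q), k) ∈ F) : F.card ≡ i [MOD n] := by
  classical
  have hsplit := Finset.card_filter_add_card_filter_not (s := F) (fun z => z.1 = none)
  have hn : (F.filter fun z => z.1 = none).card = i := by
    have : (F.filter fun z => z.1 = none) = Finset.univ.image (fun k : Fin i => ((none, k) : Y n × Fin i)) := by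
      ext ⟨y, k⟩
      simp only [Finset.mem_filter, Finset.mem_image, Finset.mem_univ, true_and, Prod.mk.injEq]
      constructor
      · rintro ⟨_, rfl⟩; exact ⟨k, rfl, rfl⟩
      · rintro ⟨k', h1, h2⟩; subst h1; exact ⟨h0 k, rfl⟩
    rw [this, Finset.card_image_of_injective _ (fun a b h => (Prod.mk.inj h).2)]
    simp
  have hs : n ∣ (F.filter fun z => ¬ z.1 = none).card := by
    rw [Finset.card_eq_sum_card_image bl]
    refine Finset.dvd_sum fun b hb' => ?_
    obtain ⟨⟨y, k⟩, hz, rfl⟩ := Finset.mem_image.1 hb'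
    rw [Finset.mem_filter] at hz
    rcases y with _ | ⟨m, p⟩
    · exact absurd rfl hz.2
    have : ((F.filter fun z => ¬ z.1 = none).filter fun z => bl z = bl (some (m, p), k)) =
        Finset.univ.image (fun q : Fin n => ((some (m, q), k) : Y n × Fin i)) := by
      ext ⟨y', k'⟩
      simp only [Finset.mem_filter, Finset.mem_image, Finset.mem_univ, true_and]
      constructor
      · rintro ⟨⟨_, h2⟩, h3⟩
        rcases y' with _ | ⟨m', p'⟩
        · exact absurd rfl h2
        simp only [bl, Option.map_some, Prod.mk.injEq, Option.some.injEq] at h3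
        refine ⟨p', ?_⟩
        rw [h3.1, h3.2]
      · rintro ⟨q, hq⟩
        obtain ⟨rfl, rfl⟩ := Prod.mk.inj hq
        exact ⟨⟨hb m p q k hz.1, Option.some_ne_none _⟩, rfl⟩
    rw [this, Finset.card_image_of_injective]
    · simp
    · intro a b h
      simpa using h
  rw [← hsplit, hn]
  obtain ⟨c, hc⟩ := hs
  rw [hc]
  exact (Nat.modEq_iff_dvd' (by omega)).2 ⟨c, by omega⟩ |>.symm

/-- Isomorphic powers have congruent exponents. -/
lemma modEq_of_iso (h1n : 1 ≤ n) (Θ : W n i ≃+* W n j) : i ≡ j [MOD n] := by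
  classical
  rcases Nat.lt_or_ge n 2 with hn | hn
  · obtain rfl : n = 1 := by omega
    exact Nat.modEq_one
  obtain ⟨θ, hθ⟩ := exists_equiv Θ
  have hG := hθ (XX n i) XX_central
  set G := Θ (XX n i) with hGdef
  -- `G` is constant on almost all blocks
  have hM : ∃ M : ℕ, ∀ m ≥ M, ∀ (p q : Fin n) (k : Fin j), vl G (some (m, p), k) = vl G (some (m, q), k) := by
    choose M hM using fun k : Fin j => val_mem_AA n (G k).2
    refine ⟨Finset.univ.sup M, fun m hm p q k => hM k m (le_trans ?_ hm) p q⟩
    exact Finset.le_sup (Finset.mem_univ k)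
  obtain ⟨M, hM⟩ := hM
  let F' : Finset (Y n × Fin j) := (Finset.insertNone ((Finset.range M) ×ˢ (Finset.univ : Finset (Fin n)))) ×ˢ Finset.univ
  have hF' : ∀ z, z ∈ F' ↔ ∀ m p, z.1 = some (m, p) → m < M := by
    rintro ⟨y, k⟩
    simp only [F', Finset.mem_product, Finset.mem_insertNone, Finset.mem_univ, and_true,
      Finset.mem_range, Option.mem_def, Prod.forall]
  let F : Finset (Y n × Fin i) := F'.map θ.symm.toEmbedding
  have hF : ∀ z, z ∈ F ↔ θ z ∈ F' := by
    intro z
    simp only [F, Finset.mem_map_equiv, Equiv.symm_symm]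
  have hcard : F.card = F'.card := Finset.card_map _
  -- a point outside `F` lies in a full block of points outside `F`
  have key : ∀ z, z ∉ F → ∃ f : Fin n → Y n × Fin i, Function.Injective f ∧ (∀ q, bl (f q) = bl z) ∧
      ∀ q, f q ∉ F := by
    intro z hz
    rw [hF, hF'] at hz
    push Not at hz
    obtain ⟨m, p, hmp, hm⟩ := hz
    refine ⟨fun q => θ.symm (some (m, q), (θ z).2), ?_, ?_, ?_⟩
    · intro q q' h
      simpa using θ.symm.injective h
    · intro q
      apply bl_eq_of_vl
      rw [← hG, ← hG, θ.apply_symm_apply, hM m hm q p]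
      have : θ z = (some (m, p), (θ z).2) := Prod.ext hmp rfl
      conv_rhs => rw [this]
    · intro q hq
      rw [hF, θ.apply_symm_apply, hF'] at hq
      exact absurd (hq m q rfl) (not_lt.2 hm)
  have h0 : ∀ k, (none, k) ∈ F := by
    intro k
    by_contra hk
    obtain ⟨f, hf, hfb, _⟩ := key _ hk
    have hall : ∀ q, f q = (none, k) := by
      intro q
      have := hfb q
      rcases hfq : f q with ⟨y, k'⟩
      rw [hfq] at this
      simp only [bl, Option.map_none, Prod.mk.injEq] at this
      rcases y with _ | y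
      · rw [this.2]
      · simp at this
    have := hf ((hall ⟨0, by omega⟩).trans (hall ⟨1, by omega⟩).symm)
    simp at this
  have hb : ∀ m p q k, (some (m, p), k) ∈ F → (some (m, q), k) ∈ F := by
    intro m p q k hp
    by_contra hq
    obtain ⟨f, hf, hfb, hfF⟩ := key _ hq
    have hall : ∀ r, ∃ r', f r = (some (m, r'), k) := by
      intro r
      have := hfb r
      rcases hfq : f r with ⟨y, k'⟩
      rw [hfq] at this
      rcases y with _ | ⟨m', r'⟩
      · simp [bl] at this
      · simp only [bl, Option.map_some, Prod.mk.injEq, Option.some.injEq] at this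
        exact ⟨r', by rw [this.1, this.2]⟩
    choose g hg using hall
    have hginj : Function.Injective g := by
      intro a b hab
      exact hf (by rw [hg, hg, hab])
    obtain ⟨r, hr⟩ := (Finite.injective_iff_surjective.1 hginj) p
    exact hfF r (by rw [hg, hr]; exact hp)
  have e1 := card_mod F h0 hb
  have e2 : F'.card ≡ j [MOD n] := by
    refine card_mod F' (fun k => ?_) (fun m p q k h => ?_)
    · rw [hF']; simp
    · rw [hF'] at h ⊢
      intro m' p' h'
      simp only [Option.some.injEq, Prod.mk.injEq] at h'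
      have := h m p rfl
      omega
  rw [hcard] at e1
  exact e1.symm.trans e2

lemma nontrivial_RR : Nontrivial (RR n) := by
  refine ⟨⟨⟨scal (atom n none), atom_mem n none⟩, 0, fun h => ?_⟩⟩
  have h2 := congrArg (fun u : RR n => val u.1 none) h
  have h3 : val (scal (atom n none) : P (Y n) (Fin (n + 1)) (Fin 3)) none = 1 := by
    rw [val_scal]; simp [atom]
  have h4 : val ((0 : RR n) : P (Y n) (Fin (n + 1)) (Fin 3)) none = 0 := rfl
  simp only [h3, h4] at h2
  exact one_ne_zero h2

/-- The powers of `RR n`. -/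
lemma pow_iff (hn : 1 ≤ n) (hi : 1 ≤ i) (hj : 1 ≤ j) :
    Nonempty ((Fin i → RR n) ≃+* (Fin j → RR n)) ↔ i ≡ j [MOD n] := by
  refine ⟨fun ⟨Θ⟩ => modEq_of_iso hn Θ, fun h => ?_⟩
  have key : ∀ i j : ℕ, 1 ≤ i → i ≤ j → i ≡ j [MOD n] →
      Nonempty ((Fin i → RR n) ≃+* (Fin j → RR n)) := by
    intro i j hi hij h
    obtain ⟨k, hk⟩ := (Nat.modEq_iff_dvd' hij).1 h
    obtain ⟨i, rfl⟩ : ∃ i', i = i' + 1 := ⟨i - 1, by omega⟩
    obtain rfl : j = i + 1 + k * n := by rw [mul_comm]; omega
    exact pow_iso_of_modEq (selfPower (beta n) (fn n) 0 rfl) i k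
  rcases le_total i j with hij | hij
  · exact key i j hi hij h
  · obtain ⟨e⟩ := key j i hj hij h.symm
    exact ⟨e.symm⟩

end Powers

end Pool.Agent.KS6_45.SP
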